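import Pool.Agent.Lib.MP_8fffab_lc_NB.Main
import Pool.Agent.Lib.MP_8fffab_lc_RG.Upper

/-!
# MP_8fffab_lc: the Set Cover Conjecture for circuits with few negations

Randomized circuits which compute with real numbers, with nondecreasing functions of two gates
(for example the minimum, that is AND), maxima of any number of gates (OR) and at most `t` other
gates, which compute arbitrary Boolean functions of the comparisons `1 ≤ value` and have at most
`w` input wires altogether; the input is the incidence matrix of `m` subsets of an `n`-set, and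
the circuit decides with error probability at most `1 / 2 - γ` whether at most `k` of the sets
cover.

First part: for all `b < 2`, `c` and `ε > 0`, all large `k`, all large `n` and
`m = n.choose (n / k)` such a circuit with `(w + 1) * 2 ^ t ≤ γ * (m * n) ^ (1 - ε)` has at least
`b ^ n * (m * n) ^ c` nondecreasing functions of two gates. Second part: for all `k ≥ 2` and
`ε > 0` there is `δ > 0` such that for large `h`, all `n ≥ k * h` and `m = n.choose h` such a
circuit with `(w + 1) * 2 ^ t ≤ γ * 2 ^ (δ * k * h)` has at least `2 ^ ((1 - ε) * k * h)` of them.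
Third part: the dynamic program over all subsets is a monotone circuit with at most
`2 ^ n * (m * n * k)` minima of two gates, so that the base `2` is exact.

For Boolean circuits with NOT gates (`w = t`) and constant `γ` the condition of the first part
allows `t = (1 - 2 * ε) * log₂ (m * n)` of them; with about `log₂ (m * n)` NOT gates every circuit
can be simulated at polynomial cost (Markov, Fischer).
The definitions are in `Pool/Agent/Lib/MP_8fffab_lc_RG/Defs.lean`.
-/

set_option autoImplicit false

namespace Pool.Agent.Results.MP_8fffab_lc.AlmostMonotoneCircuits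

open RealMono

theorem result :
    (∀ b : ℝ, 0 ≤ b → b < 2 → ∀ c : ℕ, ∀ ε : ℝ, 0 < ε → ∃ k₀ : ℕ, ∀ k ≥ k₀,
      ∃ n₀ : ℕ, ∀ n ≥ n₀, ∀ (s t w : ℕ) (γ : ℝ), 0 < γ →
        ((w : ℝ) + 1) * 2 ^ t ≤ γ * ((n.choose (n / k) : ℝ) * n) ^ (1 - ε) →
        HasRandomCircuit (n.choose (n / k)) n k s t w γ →
          b ^ n * ((n.choose (n / k) : ℝ) * n) ^ c ≤ s) ∧
    (∀ k : ℕ, 2 ≤ k → ∀ ε : ℝ, 0 < ε → ∃ δ : ℝ, 0 < δ ∧ ∃ h₀ : ℕ, ∀ h ≥ h₀, ∀ n, k * h ≤ n →
      ∀ (s t w : ℕ) (γ : ℝ), 0 < γ →
        ((w : ℝ) + 1) * 2 ^ t ≤ γ * 2 ^ (δ * (k * h : ℕ)) →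
        HasRandomCircuit (n.choose h) n k s t w γ →
          (2 : ℝ) ^ ((1 - ε) * (k * h : ℕ)) ≤ s) ∧
    ∀ m n k : ℕ, HasRandomCircuit m n k (2 ^ n * (m * n * k)) 0 0 (1 / 2) :=
  ⟨fun b hb0 hb c _ hε => NegBase.main_neg b hb0 hb c hε, fun _ hk _ hε => main_k hk hε, upper⟩

end Pool.Agent.Results.MP_8fffab_lc.AlmostMonotoneCircuits
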