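import Pool.Agent.Lib.MP_8fffab_lc_CP.Main
import Pool.Agent.Lib.MP_8fffab_lc_CP.Upper

/-!
# MP_8fffab_lc: the Set Cover Conjecture for cutting planes refutations

Let `n = k * h`, let `X` be a family of subsets of size `h` of an `n`-set, let `A` be a tuple of `k`
members of `X` which cover, and let `f` be a function from the `n`-set to `ZMod p` whose sum over
every member of `X` is zero, while the sum over the whole set is not zero. This is impossible.
Refutations of this contradiction have lines `0 ≤ F X A + G f` with arbitrary real functions `F`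
and `G`; every line follows semantically from the condition on one set `B` (if `B` belongs to `X`
then the sum of `f` over `B` is zero) or from two earlier lines. All hypotheses which do not connect
`X` and `f` may be used in every inference. In particular this covers cutting planes refutations of
every encoding of the contradiction by linear inequalities in Boolean variables, each of which
depends only on `X`, `A` or only on `f`.

First part: for all `k ≥ 2` and `ε > 0` there is a prime `p` such that for large `h` every
refutation has at least `2 ^ ((1 - ε) * n)` lines. Second part: for all `b < 2` and `c` and all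
large `k` there is a prime `p` such that for large `h` every refutation has at least
`b ^ n * (m * n) ^ c` lines, where `m = n.choose h`. Third part: `2 ^ n * (5 * m)` lines are enough.

The definitions are in `Pool/Agent/Lib/MP_8fffab_lc_CP/Defs.lean`.
-/

set_option autoImplicit false

namespace Pool.Agent.Results.MP_8fffab_lc.CuttingPlanes

open SplitLines

theorem result :
    (∀ k : ℕ, 2 ≤ k → ∀ ε : ℝ, 0 < ε → ∃ p : ℕ, p.Prime ∧ ∃ h₀ : ℕ, ∀ h ≥ h₀,
      ∀ N, HasRefutation k h p N → (2 : ℝ) ^ ((1 - ε) * (k * h : ℕ)) ≤ N) ∧
    (∀ b : ℝ, 0 ≤ b → b < 2 → ∀ c : ℕ, ∃ k₀ : ℕ, ∀ k ≥ k₀,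
      ∃ p : ℕ, p.Prime ∧ ∃ h₀ : ℕ, ∀ h ≥ h₀, ∀ N, HasRefutation k h p N →
        b ^ (k * h) * (((k * h).choose h : ℝ) * (k * h : ℕ)) ^ c ≤ N) ∧
    ∀ k : ℕ, 0 < k → ∀ h p : ℕ, HasRefutation k h p (2 ^ (k * h) * (5 * (k * h).choose h)) :=
  ⟨fun _ hk _ hε => lower hk hε, lower_b, fun _ hk => upper hk⟩

end Pool.Agent.Results.MP_8fffab_lc.CuttingPlanes
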