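import Pool.Agent.Lib.MP_8fffab_lc_Gap.DefsCircuit
import Pool.Agent.Lib.MP_8fffab_lc_Gap.Final

/-!
# Approximate Set Cover is hard for decomposable Boolean circuits (DNNF), with base 2

The definitions are in `Pool.Agent.Lib.MP_8fffab_lc_Gap.DefsCircuit` and the files imported there,
the proof is in `Pool.Agent.Lib.MP_8fffab_lc_Gap`.
-/

namespace Pool.Agent.Results.MP_8fffab_lc.DecomposableApproximation

open Pool.Agent.Lib.MP_8fffab_lc_DNNF Pool.Agent.Lib.MP_8fffab_lc_Gap

/-- Explicit form: let the universe have `n = 2dh` elements. A Boolean circuit in negation normal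
form whose `and` gates are decomposable (a DNNF; nondeterministic read-once branching programs are
a special case) and which, on families consisting of all singletons and of sets with `d` elements,
separates the families with a cover by `2h = n / d` sets from those with no cover by `K` sets, has
at least `(2h choose h)^(d-1) / V^2` `and` gates, where `V` is the number of subsets of the universe
with at most `2 ⌊d (K - 2h) / (d - 1)⌋` elements. (For `K = 2h`, the exact case, `V = 1`.)

Asymptotic form: for every `b < 2` there are `ε > 0` and `d₀` such that for every `d ≥ d₀` no such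
circuits with `b^n * poly(N)` `and` gates separate the families with a cover by `n / d` sets from
those with no cover by `ε n` sets; here `n + (n choose d)` bounds the number of elements plus the
number of sets of size `d`. (Every family considered has a cover by `n` sets.) -/
theorem result :
    (∀ d h K : ℕ, 2 ≤ d → 1 ≤ h → K < (d + 1) * h →
      ∀ (C : ℕ → Gate (Finset (Fin (d * (2 * h))))) (out : ℕ), Decomposable C out →
        Separates C out d (2 * h) K →
          (2 * h).choose h ^ (d - 1) ≤ numAnd C out *
            (∑ i ∈ Finset.range (2 * (d * (K - 2 * h) / (d - 1)) + 1),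
              (d * (2 * h)).choose i) ^ 2) ∧
    ∀ b : ℝ, 0 ≤ b → b < 2 → ∃ ε : ℝ, 0 < ε ∧ ∃ d₀ : ℕ, 2 ≤ d₀ ∧ ∀ d, d₀ ≤ d →
      ∀ c : ℕ, ∃ h₀ : ℕ, ∀ h, h₀ ≤ h →
        ∀ (C : ℕ → Gate (Finset (Fin (d * (2 * h))))) (out K : ℕ), Decomposable C out →
          (K : ℝ) ≤ ε * (d * (2 * h) : ℕ) → Separates C out d (2 * h) K →
          (c : ℝ) * b ^ (d * (2 * h)) *
            ((d * (2 * h) : ℕ) + ((d * (2 * h)).choose d : ℕ) : ℝ) ^ c < (numAnd C out : ℝ) :=
  ⟨explicit_gap, asymptotic_circuit_gap⟩

end Pool.Agent.Results.MP_8fffab_lc.DecomposableApproximation
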