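import Pool.Agent.Lib.MP_8fffab_lc_RR.Final

/-!
The Set Cover Conjecture for (half) regular resolution, with base exactly 2.
-/

open Pool.Agent.Lib.MP_8fffab_lc_RR

theorem Pool.Agent.Results.MP_8fffab_lc.HalfRegularResolution.result :
    (∀ (b : ℝ) (C : ℕ), 0 ≤ b → b < 2 → ∃ N : ℕ, ∀ h r : ℕ, N ≤ h → N ≤ r → ∀ (s : ℕ)
      (R : Refutation (Fin (2 * r) × {A : Finset (Fin (2 * r * h + 1)) // A.card = h})
        (Liberal (fun A => A.1) (2 * r)) s), HalfRegular R →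
      b ^ (2 * r * h + 1) * (((2 * r * h + 1).choose h * (2 * r * h + 1) : ℕ) : ℝ) ^ C < s) ∧
    (∀ (n m k : ℕ) (F : Fin m → Finset (Fin n)),
      (∀ t : Fin k → Fin m, ∃ u, ∀ i, u ∉ F (t i)) →
      ∃ s ≤ 2 * (k + 1) * (m + 1) ^ 2 * 2 ^ n,
        ∃ R : Refutation (Fin k × Fin m) (Standard F k) s, Regular R) :=
  ⟨fun b C hb0 hb => lower b C hb0 hb, upper⟩
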