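import Pool.Agent.Lib.MP_8fffab_lc_Gap.DefsLinear
import Pool.Agent.Lib.MP_8fffab_lc_Gap.Final

/-!
# Linear read-once programs: base 2 for exact and for approximate Set Cover

The definitions are in `Pool.Agent.Lib.MP_8fffab_lc_Gap.DefsLinear` and the files imported there,
the proof is in `Pool.Agent.Lib.MP_8fffab_lc_Gap`.
-/

namespace Pool.Agent.Results.MP_8fffab_lc.LinearApproximation

open Pool.Agent.Lib.MP_8fffab_lc (HasCover)
open Pool.Agent.Lib.MP_8fffab_lc_Linear Pool.Agent.Lib.MP_8fffab_lc_Gap

universe u

/-- Explicit lower bound: let the universe have `n = 2dh` elements. Over every field, a linear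
read-once program (with any order of reading) which, on families consisting of all singletons and
of sets with `d` elements, separates the families with a cover by `2h = n / d` sets from those with
no cover by `K` sets, has width at least `(2h choose h)^(d-1) / ((n choose d) * V)`, where `V` is
the number of subsets of the universe with at most `2 ⌊d (K - 2h) / (d - 1)⌋` elements. (For
`K = 2h`, the exact case, `V = 1`.)

Asymptotic form: for every `b < 2` there are `ε > 0` and `d₀` such that for every `d ≥ d₀` no
linear read-once programs of width `b^n * poly(N)`, over any fields, separate the families with a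
cover by `n / d` sets from those with no cover by `ε n` sets; here `n + (n choose d)` bounds the
number of elements plus the number of sets of size `d`. (Every family considered has a cover by `n`
sets.)

Upper bound: over every infinite field and in every order of reading, width `2^n * (k + 1)`
suffices to solve Set Cover exactly, for all families of subsets of a universe with `n` elements
and budget `k`. So `2` is the exact base for linear read-once programs over infinite fields. -/
theorem result :
    (∀ (F : Type u) [Field F] (d h K : ℕ), 2 ≤ d → 1 ≤ h → K < (d + 1) * h → ∀ (w : ℕ)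
      (P : LinProg F (Finset (Fin (d * (2 * h)))) w), SeparatesLin P d (2 * h) K →
        (2 * h).choose h ^ (d - 1) ≤ (d * (2 * h)).choose d *
          (w * ∑ i ∈ Finset.range (2 * (d * (K - 2 * h) / (d - 1)) + 1),
            (d * (2 * h)).choose i)) ∧
    (∀ b : ℝ, 0 ≤ b → b < 2 → ∃ ε : ℝ, 0 < ε ∧ ∃ d₀ : ℕ, 2 ≤ d₀ ∧ ∀ d, d₀ ≤ d →
      ∀ c : ℕ, ∃ h₀ : ℕ, ∀ h, h₀ ≤ h →
        ∀ (F : Type u) [Field F] (w K : ℕ) (P : LinProg F (Finset (Fin (d * (2 * h)))) w),
          (K : ℝ) ≤ ε * (d * (2 * h) : ℕ) → SeparatesLin P d (2 * h) K →
          (c : ℝ) * b ^ (d * (2 * h)) *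
            ((d * (2 * h) : ℕ) + ((d * (2 * h)).choose d : ℕ) : ℝ) ^ c < (w : ℝ)) ∧
    ∀ (F : Type u) [Field F] [Infinite F] (n k : ℕ) (L : List (Finset (Fin n))), L.Nodup →
      (∀ A, A ∈ L) → ∃ P : LinProg F (Finset (Fin n)) (2 ^ n * (k + 1)), P.order = L ∧
        ∀ S : Finset (Finset (Fin n)),
          (P.value (fun A => decide (A ∈ S)) ≠ 0 ↔ HasCover S k) :=
  ⟨fun _ _ d h K hd hh hK w P hP => explicit_linear_gap d h K hd hh hK w P hP,
    fun b hb0 hb => asymptotic_linear_gap b hb0 hb,
    fun _ _ _ n k L hL hall => upper_bound_infinite n k L hL hall⟩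

end Pool.Agent.Results.MP_8fffab_lc.LinearApproximation
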