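import Pool.Agent.Lib.SCN.Final

/-!
# Set Cover: the normal form

Word RAM of `Pool.Agent.Lib.SCR.Model`; the problems and `Fast` in `Pool.Agent.Lib.SCN.Defs`, `Uniform` and
`FastMatching` in `Pool.Agent.Lib.SCN.Defs2`.

Set Cover (at most `k` sets), exact cover, partition into at most `k` sets, packing of `k` disjoint nonempty sets
either all have algorithms with `β^n` times a polynomial steps, `β < 2`, or none of them has, and they have if and
only if for some `K ≥ 3` (equivalently: with one `β` for all large `K`) it can be decided in `O(β^n)` steps, `β < 2`,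
whether an `n/K`-uniform hypergraph with `n` vertices has a perfect matching.
-/

namespace Pool.Agent.Results.MP_8fffab_lc.MatchingNormalForm

open SCR SCN

theorem result : List.TFAE [
    Fast Coverable,
    Fast Exact,
    Fast Part,
    Fast Pack,
    ∃ (K : ℕ) (β : ℝ), 3 ≤ K ∧ 1 ≤ β ∧ β < 2 ∧ FastMatching K β,
    ∃ (β : ℝ) (K₀ : ℕ), 1 ≤ β ∧ β < 2 ∧ ∀ K, K₀ ≤ K → FastMatching K β] :=
  matchingForm_all

end Pool.Agent.Results.MP_8fffab_lc.MatchingNormalForm
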