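import Pool.Agent.Lib.MP_8fffab_lc_MC.Main

/-!
# MP_8fffab_lc: the Set Cover Conjecture for monotone circuits

Monotone circuits for Set Cover with `m = n.choose (n / k)` subsets of `Fin n` and the budget `k`
have at least `2 ^ ((1 - η) * n)` AND gates (`k ≥ 2` fixed, `n` large), and at least
`b ^ n * (m * n) ^ c` AND gates (`b < 2` and `c` fixed, `k` a large constant, `n` large).
-/

namespace Pool.Agent.Results.MP_8fffab_lc.MonotoneCircuits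

open SetCoverMono

theorem result :
    (∀ k : ℕ, 2 ≤ k → ∀ η : ℝ, 0 < η → ∃ n₀ : ℕ, ∀ n ≥ n₀, ∀ t : ℕ,
      HasMonotoneCircuit (n.choose (n / k)) n k t → (2 : ℝ) ^ ((1 - η) * n) ≤ t) ∧
    ∀ b : ℝ, 0 ≤ b → b < 2 → ∀ c : ℕ, ∃ k₀ : ℕ, ∀ k ≥ k₀, ∃ n₀ : ℕ, ∀ n ≥ n₀, ∀ t : ℕ,
      HasMonotoneCircuit (n.choose (n / k)) n k t →
        b ^ n * ((n.choose (n / k) : ℝ) * n) ^ c ≤ t :=
  ⟨fun _ hk _ hη => fixed_k hk hη, base_two⟩

end Pool.Agent.Results.MP_8fffab_lc.MonotoneCircuits
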