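import Pool.Agent.Lib.SR.SC5

/-!
# MP_8fffab_lc. The sign rank of Set Cover

Half of the `2 M` given subsets `a 0, …, a (M - 1), b 0, …, b (M - 1)` of an `n`-set belong to
Alice, the others to Bob. A sign representation with `r` terms is a family of real functions `p t`
of Alice's sets and `q t` of Bob's sets, `t < r`, such that at most `k` of the `2 M` sets cover if
and only if `∑ t, p t a * q t b > 0`.

* For `k = 2 d` and `n ≥ 2 d h` it has at least `c (min M (2h choose h)) ^ (d / 2)` terms, where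
  `c > 0` depends only on `d`.
* For all `β < √2` and `c'`, all large `d`, `M = 2h choose h`, `h = ⌊n / (2 d)⌋` and large `n` it
  has at least `β ^ n * (n * M) ^ c'` terms.
* `2 ^ n * (k + 1)` terms are enough.

The lower bound is a reduction from the AND of `d` ORs composed with index functions (pattern
matrices, Forster's theorem, `Lib/SR`): in the `i`-th of `d` blocks of `2 h` elements the sets of
Alice and Bob have `h` elements, and two of them cover the block only if they are complementary.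
-/

set_option autoImplicit false

namespace Pool.Agent.Results.MP_8fffab_lc.SignRank

theorem result :
    (∀ d : ℕ, 1 ≤ d → ∃ c : ℝ, 0 < c ∧ ∀ n h M : ℕ, 2 * d * h ≤ n →
      ∀ (r : ℕ) (p q : Fin r → (Fin M → Finset (Fin n)) → ℝ),
        (∀ a b : Fin M → Finset (Fin n),
          (∃ I J : Finset (Fin M), I.card + J.card ≤ 2 * d ∧
            ∀ x, (∃ i ∈ I, x ∈ a i) ∨ ∃ j ∈ J, x ∈ b j) ↔ 0 < ∑ t, p t a * q t b) →
        c * ((min M ((2 * h).choose h) : ℕ) : ℝ) ^ ((d : ℝ) / 2) ≤ r) ∧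
    (∀ β : ℝ, 0 ≤ β → β < √2 → ∀ c' : ℕ, ∃ d₀ : ℕ, ∀ d ≥ d₀, ∃ n₀ : ℕ, ∀ n ≥ n₀,
      ∀ (r : ℕ) (p q : Fin r → (Fin ((2 * (n / (2 * d))).choose (n / (2 * d))) →
        Finset (Fin n)) → ℝ),
        (∀ a b, (∃ I J : Finset (Fin ((2 * (n / (2 * d))).choose (n / (2 * d)))),
            I.card + J.card ≤ 2 * d ∧
            ∀ x, (∃ i ∈ I, x ∈ a i) ∨ ∃ j ∈ J, x ∈ b j) ↔ 0 < ∑ t, p t a * q t b) →
        β ^ n * ((n : ℝ) * ((2 * (n / (2 * d))).choose (n / (2 * d)) : ℕ)) ^ c' ≤ r) ∧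
    ∀ n M k : ℕ, ∃ p q : Fin (2 ^ n * (k + 1)) → (Fin M → Finset (Fin n)) → ℝ,
      ∀ a b : Fin M → Finset (Fin n),
        (∃ I J : Finset (Fin M), I.card + J.card ≤ k ∧
          ∀ x, (∃ i ∈ I, x ∈ a i) ∨ ∃ j ∈ J, x ∈ b j) ↔ 0 < ∑ t, p t a * q t b :=
  ⟨Pool.SR.sc_lower_min, Pool.SR.sc_base, Pool.SR.sc_upper⟩

end Pool.Agent.Results.MP_8fffab_lc.SignRank
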