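import Pool.Agent.Lib.MP_8fffab_lc_AC.Final
import Pool.Agent.Lib.MP_8fffab_lc_AC.UpE

/-!
# MP_8fffab_lc: the Set Cover Conjecture for circuits of small depth

Circuits with AND gates and OR gates of any fan-in, further gates, which compute arbitrary Boolean
functions of at most `f` gates, NOT gates (which are free) and, on top, a threshold gate with
arbitrary real weights which reads all gates. The input is the incidence matrix of `m` subsets of
an `n`-set, and the circuit decides whether at most `k` of the sets cover.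

First part: for all `c`, all large `k`, some `δ > 0`, all large `n` and `m = n.choose (n / k)` such
a circuit of depth `d` below the threshold gate, `d ^ 2 ≤ δ * n`, and with `f ^ d ≤ 2 ^ (δ * n)`
has at least `1.36 ^ n * (m * n) ^ c` gates. Second part: for all `k` and `ε > 0` there is `d` such
that for all large `n` and all `m` there is such a circuit of depth `d` with at most
`2 ^ ((1 + ε) * n) * (m + 1)` AND gates and OR gates and no further gates.

The definitions are in `Pool/Agent/Lib/MP_8fffab_lc_AC/Defs.lean`.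
-/

set_option autoImplicit false

namespace Pool.Agent.Results.MP_8fffab_lc.SmallDepthCircuits

open SmallDepth

theorem result :
    (∀ c : ℕ, ∃ k₀ : ℕ, ∀ k ≥ k₀, ∃ δ : ℝ, 0 < δ ∧ ∃ n₀ : ℕ, ∀ n ≥ n₀, ∀ d f s : ℕ,
      1 ≤ d → (d : ℝ) ^ 2 ≤ δ * n → (f : ℝ) ^ d ≤ 2 ^ (δ * n) →
        HasCircuit (n.choose (n / k)) n k d f s →
          1.36 ^ n * ((n.choose (n / k) : ℝ) * n) ^ c ≤ s) ∧
    ∀ (k : ℕ) (ε : ℝ), 0 < ε → ∃ d n₀ : ℕ, ∀ n ≥ n₀, ∀ m : ℕ, ∃ s : ℕ,
      (s : ℝ) ≤ 2 ^ ((1 + ε) * n) * (m + 1) ∧ HasCircuit m n k d 0 s :=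
  ⟨main, upper⟩

end Pool.Agent.Results.MP_8fffab_lc.SmallDepthCircuits
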