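import Mathlib
import Pool.Agent.Lib.SAC.Z1
import Pool.Agent.Lib.SAC.U

/-!
# Set Cover: locally symmetric algebraic circuits

Algebraic circuits over a field `L` in the variables `x_(k,A)`, `k = 0, 1, 2`, `A` a subset of a
finite set `V`; affine combinations of variables and gates are free, products of two gates are
counted, the depth is arbitrary.  `coeff A B D` is the coefficient of
`x_(0,A) x_(1,B) x_(2,D)` in the polynomial computed by the circuit.  All definitions are in
`Pool.Agent.Lib.SAC.Defs`.

* Let `V` be divided into `m` blocks of `b` points, `N = mb`.  For every `β < 2` and every large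
  even `b` (depending only on `β`) the number of products is more than
  `β ^ N * (number of elements of S_b^m induced by automorphisms) / (b!)^m`, if the trilinear
  coefficients are supported on the partitions of `V` into three sets and do not vanish at some
  partition whose classes contain at most half of each block (or have, for some valuation of
  `L`, a larger value at such a partition than at all triples which are no partitions).
* `2 * 2 ^ |V|` products, with symmetry under all permutations of `V`, are enough for the sum over
  all triples with `A ∪ B ∪ D = V`, with weights depending on the sizes; with the indicators of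
  three sizes of sum `|V|` as weights only the partitions into sets of these sizes remain.
-/

namespace Pool.Agent.Results.MP_8fffab_lc.SymmetricAlgebra

open Pool.Agent.SAC Equiv

open Classical in
theorem result :
    (∀ β : ℝ, 0 ≤ β → β < 2 → ∃ b₀ : ℕ, ∀ b ≥ b₀, Even b → ∀ m : ℕ, 1 ≤ m →
      ∀ (L : Type) [Field L] (Γ₀ : Type) [LinearOrderedCommGroupWithZero Γ₀]
        (v : Valuation L Γ₀) (Γ : Type) [Fintype Γ] (C : Circuit (Fin m × Fin b) L Γ),
        Detects v C.coeff →
        β ^ (m * b) * C.numLocalSym < C.products * ((b.factorial : ℝ) ^ m)) ∧
    (∀ (V L : Type) [Fintype V] [Field L] (f : Fin 3 → ℕ → L),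
      ∃ (Γ : Type) (_ : Fintype Γ) (C : Circuit V L Γ), C.products = 2 * 2 ^ Fintype.card V ∧
        (∀ π : Perm V, ∃ τ, C.IsAut π τ) ∧
        C.val C.out = ∑ A : Finset V, ∑ B : Finset V, ∑ D : Finset V,
          if A ∪ B ∪ D = Finset.univ then
            MvPolynomial.C (f 0 A.card * f 1 B.card * f 2 D.card) *
              (MvPolynomial.X (0, A) * MvPolynomial.X (1, B) * MvPolynomial.X (2, D)) else 0) :=
  ⟨fun β h0 h2 => lower_bound β h0 h2, fun V L _ _ f => upper_bound V L f⟩

end Pool.Agent.Results.MP_8fffab_lc.SymmetricAlgebra
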