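import Mathlib
import Pool.Agent.Lib.MP_8fffab_lc_SymB.Rate
import Pool.Agent.Lib.MP_8fffab_lc_SymB.Dp

/-!
# Set Cover: symmetric circuits

Circuits over the variables `x_A` (`A` a `d`-element subset of `{1, ..., n}`), see
`Pool.Agent.Lib.MP_8fffab_lc_Sym.Defs` for circuits, their symmetries and covers, and
`Pool.Agent.Lib.MP_8fffab_lc_SymB.Defs` for `HasCircuit`, `WireBound`, `CountsUpTo`, `AndOr` and
`wires`.  A circuit is symmetric if every permutation of the universe extends to an automorphism
of the circuit.  The quantity `wires * (n! / number of symmetries)` is the number of wires for a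
symmetric circuit.

* AND, OR and NOT gates, and more generally gates which count only up to `θ ≤ n / L`: for every
  `b < 2`, every `c` and every large `M` the number of wires has to be more than
  `b ^ n * C(n,d) ^ c`, for every even `d > 0` and `n = Md`, for circuits (also randomized, with
  advantage more than `2 ^ (-n/L)`) which decide for the families `F` of `d`-element sets whether
  `M` sets of `F` cover the universe.
* The subset dynamic program is a symmetric circuit of AND and OR gates with at most
  `3 k 2 ^ n C(n,d)` wires, for every budget `k`.  So the base `2` is optimal.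
-/

namespace Pool.Agent.Results.MP_8fffab_lc.SymmetricCircuits

open Pool.Agent.SymSC

theorem result :
    (∀ b : ℝ, 0 ≤ b → b < 2 → ∀ c : ℕ, ∃ L M₀ : ℕ, 1 ≤ L ∧ ∀ M ≥ M₀,
      ∀ (n d θ t s : ℕ) (γ : ℝ), Even d → 0 < d → n = M * d → L * (θ + t) ≤ n →
        (1 / 2 : ℝ) ^ t < γ → HasCircuit n d M γ (WireBound n d θ s) →
        b ^ n * (n.choose d : ℝ) ^ c < s) ∧
    (∀ n d k : ℕ, HasCircuit n d k 1 (fun _ _ C => C.AndOr ∧ C.CountsUpTo 1 ∧
      C.wires ≤ 3 * k * 2 ^ n * n.choose d ∧ C.numSym = n.factorial)) :=
  ⟨fun b hb0 hb c => rate2 b hb0 hb c, fun n d k => upper_bound2 n d k⟩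

end Pool.Agent.Results.MP_8fffab_lc.SymmetricCircuits
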