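import Mathlib
import Pool.Agent.Lib.MP_8fffab_lc_SymB.GatesUpper

/-!
# Set Cover: symmetric circuits with arbitrary symmetric gates (parked)
-/

namespace Pool.Agent.Results.MP_8fffab_lc.SymmetricGates

open Pool.Agent.SymSC

theorem result :
    (∀ b : ℝ, 0 ≤ b → b ^ 4 < 256 / 27 → ∀ c : ℕ,
      ∃ M₀ : ℕ, ∀ M ≥ M₀, ∃ q₀ : ℕ, ∀ q ≥ q₀, ∀ (n d s : ℕ) (γ : ℝ),
        d = 2 * (M - 1) * q → n = M * d → 0 < γ →
        HasCircuit n d M γ (GateBound n d s) → b ^ n * (n.choose d : ℝ) ^ c < s) ∧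
    (∀ n d k : ℕ, 1 ≤ n → 1 ≤ k →
      HasCircuit n d k 1 (fun Γ _ C => Fintype.card Γ = 2 ^ n * n.choose d + 1 ∧
        C.numSym = n.factorial)) :=
  ⟨fun b hb0 hb c => gates_rate b hb0 hb c, fun n d k hn hk => gates_upper n d k hn hk⟩

end Pool.Agent.Results.MP_8fffab_lc.SymmetricGates
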