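import Pool.Agent.Lib.MP_8fffab_lc_TX.Asym
import Pool.Agent.Lib.MP_8fffab_lc_TX.Upper

/-!
# MP_8fffab_lc. Set Cover and threshold gates on top of small circuits

The input is a family `F` of `h`-subsets of an `n`-set, `n = k h` (one Boolean variable for each of
the `m = n choose h` subsets); the question is whether at most `k` members of `F` cover (the
definition `HasCover` is in `Lib/MP_8fffab_lc_TX/Defs.lean`, as are `Holds` and `IsGate`). It is
answered by the sign of a sum of `M` real functions, each of which is an arbitrary real function of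
the values of `s` conjunctions of literals, of any number of literals, or a multiple of the parity
of any set of variables.

* For sets with `h + 3` elements, `n = k (h + 3)`, one has `(k h)! ≤ M (4 s)^k (h!)^k`: for `s = 1`
  and fixed `k` this is `M ≥ k^n` up to a polynomial in `n`.
* For all `b`, `c` and `δ < 1`, all large `k` and all large `h`: if `s ≤ m^δ` then
  `M ≥ b^n (m n)^c`.
* `M = k^n`, `s = 1` is enough.
-/

set_option autoImplicit false

namespace Pool.Agent.Results.MP_8fffab_lc.ThresholdCircuits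

open SetCoverThr

theorem result :
    (∀ k h s M : ℕ, 2 ≤ k → 1 ≤ s → ∀ g : Fin M → Finset (Finset (Fin (k * (h + 3)))) → ℝ,
      (∀ i, IsGate s (g i)) →
      (∀ F : Finset (Finset (Fin (k * (h + 3)))), (∀ S ∈ F, S.card = h + 3) →
        (HasCover k F ↔ 0 < ∑ i, g i F)) →
      (k * h).factorial ≤ M * (4 * s) ^ k * h.factorial ^ k) ∧
    (∀ (b : ℝ) (c : ℕ) (δ : ℝ), 0 ≤ δ → δ < 1 → ∃ k₀ : ℕ, ∀ k ≥ k₀, ∃ h₀ : ℕ, ∀ h ≥ h₀,
      ∀ (s M : ℕ) (g : Fin M → Finset (Finset (Fin (k * h))) → ℝ),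
        (s : ℝ) ≤ ((k * h).choose h : ℝ) ^ δ → (∀ i, IsGate s (g i)) →
        (∀ F : Finset (Finset (Fin (k * h))), (∀ S ∈ F, S.card = h) →
          (HasCover k F ↔ 0 < ∑ i, g i F)) →
        b ^ (k * h) * (((k * h).choose h : ℝ) * (k * h : ℕ)) ^ c ≤ M) ∧
    ∀ k h : ℕ, 0 < k → 0 < h →
      ∃ g : Fin (k ^ (k * h)) → Finset (Finset (Fin (k * h))) → ℝ, (∀ i, IsGate 1 (g i)) ∧
        ∀ F : Finset (Finset (Fin (k * h))), (∀ S ∈ F, S.card = h) →
          (HasCover k F ↔ 0 < ∑ i, g i F) :=
  ⟨fun _ _ _ _ hk hs g hgate hg => lower hk hs g hgate hg, asym, upper⟩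

end Pool.Agent.Results.MP_8fffab_lc.ThresholdCircuits
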