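import Pool.Agent.Lib.MP_8fffab_lc.Defs
import Pool.Agent.Lib.MP_8fffab_lc.Proof

/-!
# The Set Cover Conjecture holds for tropical circuits (pure dynamic programs)

The definitions are in `Pool.Agent.Lib.MP_8fffab_lc.Defs`, the proof is in
`Pool.Agent.Lib.MP_8fffab_lc.Proof`.
-/

namespace Pool.Agent.Results.MP_8fffab_lc.TropicalCircuits

open Pool.Agent.Lib.MP_8fffab_lc

/-- Explicit form: a tropical circuit that solves Set Cover with budget `2h` for all families of
`d`-element subsets of a universe with `n = 2dh` elements has at least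
`(2h choose h)^(d-1) = 2^((1 - 1/d) n - O(d log n))` addition gates.

Asymptotic form: for every `b < 2` there is a `d` such that no tropical circuits with
`b^n * poly(N)` addition gates solve Set Cover for families of `d`-element subsets, where
`n + (n choose d)` bounds the number of elements plus the number of sets. -/
theorem result :
    (∀ d h : ℕ, 1 ≤ d → 1 ≤ h → ∀ (C : ℕ → Gate (Finset (Fin (d * (2 * h))))) (out : ℕ),
      Solves C out d (2 * h) → (Nat.choose (2 * h) h) ^ (d - 1) ≤ numAdd C out) ∧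
    ∀ b : ℝ, 0 ≤ b → b < 2 → ∃ d : ℕ, 2 ≤ d ∧ ∀ c : ℕ, ∃ h₀ : ℕ, ∀ h, h₀ ≤ h →
      ∀ (C : ℕ → Gate (Finset (Fin (d * (2 * h))))) (out : ℕ), Solves C out d (2 * h) →
        (c : ℝ) * b ^ (d * (2 * h)) *
          ((d * (2 * h) : ℕ) + ((d * (2 * h)).choose d : ℕ) : ℝ) ^ c < (numAdd C out : ℝ) := by
  refine ⟨fun d h hd hh C out hC => ?_, fun b hb0 hb => asymptotic_bound b hb0 hb⟩
  rw [← Nat.centralBinom_eq_two_mul_choose]
  exact explicit_bound d h hd hh C out hC

end Pool.Agent.Results.MP_8fffab_lc.TropicalCircuits
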